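import Mathlib

/-!
Banach bimodules, derivations into dual bimodules, approximately semi-inner derivations and
approximate semi-amenability for (not necessarily unital) complex Banach algebras.
-/

namespace Pool.Agent.MP_b29958_an

open Filter Topology

universe u

/-- A Banach `A`-bimodule structure on the normed space `X`: bounded bilinear actions
`l a x = a · x` and `r a x = x · a` satisfying the bimodule laws. -/
structure Bimod (A : Type u) [NonUnitalNormedRing A] [NormedSpace ℂ A]
    (X : Type u) [NormedAddCommGroup X] [NormedSpace ℂ X] where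
  l : A → X → X
  r : A → X → X
  l_bdd : IsBoundedBilinearMap ℂ (fun p : A × X => l p.1 p.2)
  r_bdd : IsBoundedBilinearMap ℂ (fun p : A × X => r p.1 p.2)
  l_mul : ∀ a b x, l (a * b) x = l a (l b x)
  r_mul : ∀ a b x, r (a * b) x = r b (r a x)
  l_r : ∀ a b x, l a (r b x) = r b (l a x)

variable {A : Type u} [NonUnitalNormedRing A] [NormedSpace ℂ A]
  {X : Type u} [NormedAddCommGroup X] [NormedSpace ℂ X]

/-- `D : A → X*` is a derivation, `D (a b) = a · D b + D a · b`, for the dual actions
`(a · f) x = f (x · a)` and `(f · a) x = f (a · x)`. -/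
def IsDualDerivation (M : Bimod A X) (D : A → StrongDual ℂ X) : Prop :=
  ∀ a b x, D (a * b) x = D b (M.r a x) + D a (M.l b x)

/-- There are nets `ξ`, `η` in `X*` with `a · ξ i - η i · a → D a` in the norm of `X*`, for
every `a`. -/
def IsApproxSemiInner (M : Bimod A X) (D : A → StrongDual ℂ X) : Prop :=
  ∃ (ι : Type u) (_ : Preorder ι) (_ : IsDirectedOrder ι) (_ : Nonempty ι)
    (ξ η : ι → StrongDual ℂ X), ∀ (a : A) (ε : ℝ), 0 < ε →
      ∀ᶠ i in atTop, ∀ x, ‖D a x - (ξ i (M.r a x) - η i (M.l a x))‖ ≤ ε * ‖x‖

/-- Every continuous derivation into the dual of a Banach bimodule is approximately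
semi-inner. -/
def ApproxSemiAmenable (A : Type u) [NonUnitalNormedRing A] [NormedSpace ℂ A] : Prop :=
  ∀ (X : Type u) [NormedAddCommGroup X] [NormedSpace ℂ X] [CompleteSpace X] (M : Bimod A X)
    (D : A → StrongDual ℂ X), IsBoundedLinearMap ℂ D → IsDualDerivation M D →
      IsApproxSemiInner M D

end Pool.Agent.MP_b29958_an
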