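import Pool.Agent.MP_b29958_an.Defs

set_option maxSynthPendingDepth 3
set_option linter.unusedSectionVars false

namespace Pool.Agent.MP_b29958_an

open Filter Topology ContinuousLinearMap

universe u

/-- bundled version of `Bimod` -/
structure BBimod (A : Type u) [NonUnitalNormedRing A] [NormedSpace ℂ A]
    (X : Type u) [NormedAddCommGroup X] [NormedSpace ℂ X] where
  l : A →L[ℂ] X →L[ℂ] X
  r : A →L[ℂ] X →L[ℂ] X
  l_mul : ∀ a b x, l (a * b) x = l a (l b x)
  r_mul : ∀ a b x, r (a * b) x = r b (r a x)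
  l_r : ∀ a b x, l a (r b x) = r b (l a x)

section bundled

variable {A : Type u} [NonUnitalNormedRing A] [NormedSpace ℂ A]
  {X : Type u} [NormedAddCommGroup X] [NormedSpace ℂ X]

noncomputable def BBimod.dual (M : BBimod A X) : BBimod A (StrongDual ℂ X) where
  l := (ContinuousLinearMap.compL ℂ X X ℂ).flip.comp M.r
  r := (ContinuousLinearMap.compL ℂ X X ℂ).flip.comp M.l
  l_mul a b f := by ext x; simp [M.r_mul]
  r_mul a b f := by ext x; simp [M.l_mul]
  l_r a b f := by ext x; simp [M.l_r]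

def IsDerivation (M : BBimod A X) (D : A →L[ℂ] X) : Prop :=
  ∀ a b, D (a * b) = M.l a (D b) + M.r b (D a)

def BSemiInner (M : BBimod A X) (D : A →L[ℂ] X) : Prop :=
  ∃ (ι : Type u) (_ : Preorder ι) (_ : IsDirectedOrder ι) (_ : Nonempty ι) (ξ η : ι → X),
    ∀ a, Tendsto (fun i => M.l a (ξ i) - M.r a (η i)) atTop (𝓝 (D a))

def BAmen (A : Type u) [NonUnitalNormedRing A] [NormedSpace ℂ A] : Prop :=
  ∀ (X : Type u) [NormedAddCommGroup X] [NormedSpace ℂ X] [CompleteSpace X] (M : BBimod A X)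
    (D : A →L[ℂ] StrongDual ℂ X), IsDerivation M.dual D → BSemiInner M.dual D

noncomputable def BBimod.unb (M : BBimod A X) : Bimod A X where
  l a x := M.l a x
  r a x := M.r a x
  l_bdd := M.l.isBoundedBilinearMap
  r_bdd := M.r.isBoundedBilinearMap
  l_mul := M.l_mul
  r_mul := M.r_mul
  l_r := M.l_r

noncomputable def Bimod.bun (M : Bimod A X) : BBimod A X where
  l := M.l_bdd.toContinuousLinearMap
  r := M.r_bdd.toContinuousLinearMap
  l_mul := M.l_mul
  r_mul := M.r_mul
  l_r := M.l_r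

lemma der_iff (M : BBimod A X) (D : A →L[ℂ] StrongDual ℂ X) :
    IsDerivation M.dual D ↔ IsDualDerivation M.unb D :=
  ⟨fun h a b x => by rw [h a b]; rfl, fun h a b => ContinuousLinearMap.ext fun x => h a b x⟩

lemma semi_iff (M : BBimod A X) (D : A →L[ℂ] StrongDual ℂ X) :
    BSemiInner M.dual D ↔ IsApproxSemiInner M.unb D := by
  refine exists_congr fun ι => exists_congr fun _ => exists_congr fun _ => exists_congr fun _ =>
    exists_congr fun ξ => exists_congr fun η => forall_congr' fun a => ?_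
  rw [Metric.nhds_basis_closedBall.tendsto_right_iff]
  refine forall_congr' fun ε => forall_congr' fun hε => eventually_congr (Eventually.of_forall
    fun i => ?_)
  rw [mem_closedBall_iff_norm', opNorm_le_iff hε.le]
  rfl

lemma bamen_iff : BAmen A ↔ ApproxSemiAmenable A := by
  constructor
  · intro h X _ _ _ M D hb hD
    exact (semi_iff M.bun hb.toContinuousLinearMap).1
      (h X M.bun hb.toContinuousLinearMap ((der_iff M.bun hb.toContinuousLinearMap).2 hD))
  · intro h X _ _ _ M D hD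
    exact (semi_iff M D).2 (h X M.unb D D.isBoundedLinearMap ((der_iff M D).1 hD))

end bundled

section core

variable {A : Type u} [NonUnitalNormedRing A] [NormedSpace ℂ A] [IsScalarTower ℂ A A]
  [SMulCommClass ℂ A A]

/-- right multiplication -/
noncomputable abbrev mulR (A : Type u) [NonUnitalNormedRing A] [NormedSpace ℂ A]
    [IsScalarTower ℂ A A] [SMulCommClass ℂ A A] : A →L[ℂ] A →L[ℂ] A :=
  (ContinuousLinearMap.mul ℂ A).flip

abbrev Om (A : Type u) [NonUnitalNormedRing A] [NormedSpace ℂ A] : Type u :=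
  (A →L[ℂ] ℂ) × (A →L[ℂ] A →L[ℂ] ℂ)

/-- `(ω · a) (x, y) = ω (a x, y)` -/
noncomputable def omR (a : A) (ω : Om A) : Om A :=
  (ω.2 a, ω.2.comp (ContinuousLinearMap.mul ℂ A a))

/-- `(a · ω) (x, y) = ω (x, y a) - ω (x y, a)` -/
noncomputable def omL (a : A) (ω : Om A) : Om A :=
  (ω.1.comp (mulR A a) - ω.2.flip a,
    ((ContinuousLinearMap.compL ℂ A A ℂ).flip (mulR A a)).comp ω.2 -
      ((ContinuousLinearMap.compL ℂ A A ℂ) (ω.2.flip a)).comp (ContinuousLinearMap.mul ℂ A))

@[simp] lemma omR_fst (a : A) (ω : Om A) (y : A) : (omR a ω).1 y = ω.2 a y := rfl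
@[simp] lemma omR_snd (a : A) (ω : Om A) (x y : A) : (omR a ω).2 x y = ω.2 (a * x) y := rfl
@[simp] lemma omL_fst (a : A) (ω : Om A) (y : A) :
    (omL a ω).1 y = ω.1 (y * a) - ω.2 y a := rfl
@[simp] lemma omL_snd (a : A) (ω : Om A) (x y : A) :
    (omL a ω).2 x y = ω.2 x (y * a) - ω.2 (x * y) a := rfl

lemma om_ext {ω ω' : Om A} (h1 : ∀ y, ω.1 y = ω'.1 y) (h2 : ∀ x y, ω.2 x y = ω'.2 x y) :
    ω = ω' := by
  apply Prod.ext
  · ext y; exact h1 y
  · ext x y; exact h2 x y

lemma om_norm_le {ω : Om A} {C : ℝ} (hC : 0 ≤ C) (h1 : ∀ y, ‖ω.1 y‖ ≤ C * ‖y‖)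
    (h2 : ∀ x y, ‖ω.2 x y‖ ≤ C * ‖x‖ * ‖y‖) : ‖ω‖ ≤ C := by
  rw [Prod.norm_def]
  exact max_le (opNorm_le_bound _ hC h1) (opNorm_le_bound₂ _ hC h2)

lemma om_fst_le (ω : Om A) (y : A) : ‖ω.1 y‖ ≤ ‖ω‖ * ‖y‖ :=
  (ω.1.le_opNorm y).trans (by gcongr; exact norm_fst_le ω)

lemma om_snd_le (ω : Om A) (x y : A) : ‖ω.2 x y‖ ≤ ‖ω‖ * ‖x‖ * ‖y‖ :=
  (ω.2.le_opNorm₂ x y).trans (by gcongr; exact norm_snd_le ω)

noncomputable def omRL : A →L[ℂ] Om A →L[ℂ] Om A :=
  LinearMap.mkContinuous₂
    (LinearMap.mk₂ ℂ omR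
      (fun a b ω => om_ext (by intro y; simp) (by intro x y; simp [add_mul]))
      (fun c a ω => om_ext (by intro y; simp) (by intro x y; simp [smul_mul_assoc]))
      (fun a ω ω' => om_ext (by intro y; simp) (by intro x y; simp))
      (fun c a ω => om_ext (by intro y; simp) (by intro x y; simp))) 1
    (fun a ω => by
      simp only [LinearMap.mk₂_apply, one_mul]
      refine om_norm_le (by positivity) (fun y => ?_) (fun x y => ?_)
      · rw [omR_fst]; refine (om_snd_le ω a y).trans (le_of_eq (by ring))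
      · rw [omR_snd]; refine (om_snd_le ω _ y).trans ?_
        calc ‖ω‖ * ‖a * x‖ * ‖y‖ ≤ ‖ω‖ * (‖a‖ * ‖x‖) * ‖y‖ := by gcongr; exact norm_mul_le _ _
          _ = _ := by ring)

noncomputable def omLL : A →L[ℂ] Om A →L[ℂ] Om A :=
  LinearMap.mkContinuous₂
    (LinearMap.mk₂ ℂ omL
      (fun a b ω => om_ext (by intro y; simp [mul_add]; ring) (by intro x y; simp [mul_add]; ring))
      (fun c a ω => om_ext (by intro y; simp [mul_sub, mul_smul_comm])
        (by intro x y; simp [mul_sub, mul_smul_comm]))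
      (fun a ω ω' => om_ext (by intro y; simp; ring) (by intro x y; simp; ring))
      (fun c a ω => om_ext (by intro y; simp [mul_sub]) (by intro x y; simp [mul_sub]))) 2
    (fun a ω => by
      simp only [LinearMap.mk₂_apply]
      refine om_norm_le (by positivity) (fun y => ?_) (fun x y => ?_)
      · rw [omL_fst]
        refine (norm_sub_le _ _).trans ?_
        have h1 := om_fst_le ω (y * a)
        have h2 := om_snd_le ω y a
        have h3 : ‖ω‖ * ‖y * a‖ ≤ ‖ω‖ * (‖y‖ * ‖a‖) := by gcongr; exact norm_mul_le _ _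
        nlinarith
      · rw [omL_snd]
        refine (norm_sub_le _ _).trans ?_
        have h1 := om_snd_le ω x (y * a)
        have h2 := om_snd_le ω (x * y) a
        have h3 : ‖ω‖ * ‖x‖ * ‖y * a‖ ≤ ‖ω‖ * ‖x‖ * (‖y‖ * ‖a‖) := by
          gcongr; exact norm_mul_le _ _
        have h4 : ‖ω‖ * ‖x * y‖ * ‖a‖ ≤ ‖ω‖ * (‖x‖ * ‖y‖) * ‖a‖ := by
          gcongr; exact norm_mul_le _ _
        nlinarith)

@[simp] lemma omRL_apply (a : A) (ω : Om A) : omRL a ω = omR a ω := rfl
@[simp] lemma omLL_apply (a : A) (ω : Om A) : omLL a ω = omL a ω := rfl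

noncomputable def omMod : BBimod A (Om A) where
  l := omLL
  r := omRL
  l_mul a b ω := om_ext (by intro y; simp [mul_assoc]) (by intro x y; simp [mul_assoc])
  r_mul a b ω := om_ext (by intro y; simp) (by intro x y; simp [mul_assoc])
  l_r a b ω := om_ext (by intro y; simp) (by intro x y; simp [mul_assoc])

noncomputable def omD : A →L[ℂ] StrongDual ℂ (Om A) :=
  (ContinuousLinearMap.fst ℂ (A →L[ℂ] ℂ) (A →L[ℂ] A →L[ℂ] ℂ)).flip

@[simp] lemma omD_apply (a : A) (ω : Om A) : omD a ω = ω.1 a := rfl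

@[simp] lemma dual_l {X : Type u} [NormedAddCommGroup X] [NormedSpace ℂ X] (M : BBimod A X)
    (a : A) (f : StrongDual ℂ X) (x : X) : M.dual.l a f x = f (M.r a x) := rfl

@[simp] lemma dual_r {X : Type u} [NormedAddCommGroup X] [NormedSpace ℂ X] (M : BBimod A X)
    (a : A) (f : StrongDual ℂ X) (x : X) : M.dual.r a f x = f (M.l a x) := rfl

lemma omD_der : IsDerivation (omMod (A := A)).dual omD := by
  intro a b
  refine ContinuousLinearMap.ext fun ω => ?_
  simp [omMod]

/-- annihilator form of approximate semi-innerness into a dual module -/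
lemma sum_eq_zero_of_semiInner {X : Type u} [NormedAddCommGroup X] [NormedSpace ℂ X]
    (M : BBimod A X) (D : A →L[ℂ] StrongDual ℂ X) (h : BSemiInner M.dual D)
    {K : Type*} [Fintype K] (a : K → A) (ω : K → X) (hr : ∑ k, M.r (a k) (ω k) = 0)
    (hl : ∑ k, M.l (a k) (ω k) = 0) : ∑ k, D (a k) (ω k) = 0 := by
  obtain ⟨ι, _, _, _, ξ, η, h⟩ := h
  have h1 : Tendsto (fun i => ∑ k, (M.dual.l (a k) (ξ i) - M.dual.r (a k) (η i)) (ω k)) atTop
      (𝓝 (∑ k, D (a k) (ω k))) := by
    refine tendsto_finsetSum _ fun k _ => ?_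
    exact ((ContinuousLinearMap.apply ℂ ℂ (ω k)).continuous.tendsto _).comp (h (a k))
  have h2 : (fun i => ∑ k, (M.dual.l (a k) (ξ i) - M.dual.r (a k) (η i)) (ω k)) = fun _ => 0 := by
    funext i
    simp only [sub_apply, dual_l, dual_r, Finset.sum_sub_distrib, ← map_sum, hr, hl, map_zero,
      sub_zero]
  rw [h2] at h1
  exact tendsto_nhds_unique h1 tendsto_const_nhds

/-- the key consequence of approximate semi-amenability -/
lemma core (hA : BAmen A) {K : Type*} [Fintype K] (a : K → A)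
    (β : K → A →L[ℂ] A →L[ℂ] ℂ) (ψ ρ : K → A →L[ℂ] ℂ)
    (h1 : ∀ y, ∑ k, β k (a k) y = ∑ k, ψ k (a k * y))
    (h2 : ∀ x y, ∑ k, β k (a k * x) y = ∑ k, ψ k (a k * x * y))
    (h3 : ∀ x, ∑ k, β k x (a k) = ∑ k, ρ k (x * a k))
    (h4 : ∀ x y, ∑ k, β k x (y * a k) = ∑ k, ρ k (x * y * a k)) :
    ∑ k, ρ k (a k) = ∑ k, ψ k (a k) := by
  let ω : K → Om A := fun k => (ρ k - ψ k,
    β k - ((ContinuousLinearMap.compL ℂ A A ℂ) (ψ k)).comp (ContinuousLinearMap.mul ℂ A))
  have hω1 : ∀ k y, (ω k).1 y = ρ k y - ψ k y := fun _ _ => rfl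
  have hω2 : ∀ k x y, (ω k).2 x y = β k x y - ψ k (x * y) := fun _ _ _ => rfl
  have := sum_eq_zero_of_semiInner omMod omD (hA _ omMod omD omD_der) a ω ?_ ?_
  · simpa [hω1, sub_eq_zero] using this
  · apply om_ext
    · intro y
      simp [omMod, Prod.fst_sum, ContinuousLinearMap.sum_apply, hω2, h1]
    · intro x y
      simp [omMod, Prod.snd_sum, ContinuousLinearMap.sum_apply, hω2, h2]
  · apply om_ext
    · intro y
      simp [omMod, Prod.fst_sum, ContinuousLinearMap.sum_apply, hω1, hω2, h3]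
    · intro x y
      simp [omMod, Prod.snd_sum, ContinuousLinearMap.sum_apply, hω2, h3, h4, mul_assoc]

end core

section ideal

variable {A : Type u} [NonUnitalNormedRing A] [NormedSpace ℂ A] [IsScalarTower ℂ A A]
  [SMulCommClass ℂ A A]
  {J : Type u} [NonUnitalNormedRing J] [NormedSpace ℂ J] [IsScalarTower ℂ J J]
  [SMulCommClass ℂ J J]

/-- abstract complemented ideal -/
structure CI (ι : J →L[ℂ] A) (P : A →L[ℂ] J) : Prop where
  mul : ∀ x y, ι (x * y) = ι x * ι y
  proj : ∀ x, P (ι x) = x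
  left : ∀ a x, ι (P (a * ι x)) = a * ι x
  right : ∀ a x, ι (P (ι x * a)) = ι x * a

variable {ι : J →L[ℂ] A} {P : A →L[ℂ] J}

lemma CI.p1 (h : CI ι P) (x y : J) : P (ι x * ι y) = x * y := by rw [← h.mul, h.proj]

lemma CI.p2 (h : CI ι P) (x y : J) (a : A) : P (ι x * (a * ι y)) = x * P (a * ι y) := by
  rw [← h.left a y, h.p1, h.left]

lemma CI.p3 (h : CI ι P) (x y : J) (a : A) : P (ι x * (ι y * a)) = x * P (ι y * a) := by
  rw [← h.right a y, h.p1, h.right]

lemma CI.p4 (h : CI ι P) (x y : J) (a : A) : P (a * ι x * ι y) = P (a * ι x) * y := by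
  rw [← h.left a x, h.p1, h.left]

lemma CI.p5 (h : CI ι P) (x y : J) (a : A) : P (ι x * a * ι y) = P (ι x * a) * y := by
  rw [← h.right a x, h.p1, h.right]

/-- the bilinear form `(x, y) ↦ χ (S x * T y)` -/
noncomputable def bil (χ : A →L[ℂ] ℂ) (S T : A →L[ℂ] A) : A →L[ℂ] A →L[ℂ] ℂ :=
  (((ContinuousLinearMap.compL ℂ A A ℂ) χ).comp (ContinuousLinearMap.mul ℂ A)).bilinearComp S T

@[simp] lemma bil_apply (χ : A →L[ℂ] ℂ) (S T : A →L[ℂ] A) (x y : A) :
    bil χ S T x y = χ (S x * T y) := by simp [bil]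

/-- dual form of: `J` has a right approximate identity -/
lemma rai (hA : BAmen A) (h : CI ι P) {K : Type*} [Fintype K] (a : K → J)
    (χ : K → J →L[ℂ] ℂ) (H : ∀ r, ∑ k, χ k (a k * r) = 0) : ∑ k, χ k (a k) = 0 := by
  have := core hA (fun k => ι (a k))
    (fun k => bil ((χ k).comp P) (ContinuousLinearMap.id ℂ A)
      (ContinuousLinearMap.id ℂ A - ι.comp P)) (fun k => (χ k).comp P) (fun _ => 0) ?_ ?_ ?_ ?_
  · simpa [h.proj] using this.symm
  · intro y
    simp [mul_sub, h.p1, H]
  · intro x y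
    simp [mul_sub, mul_assoc, h.p2, H]
  · intro x
    simp [h.proj]
  · intro x y
    simp [h.left]

/-- dual form of: `J` has a left approximate identity -/
lemma lai (hA : BAmen A) (h : CI ι P) {K : Type*} [Fintype K] (a : K → J)
    (χ : K → J →L[ℂ] ℂ) (H : ∀ r, ∑ k, χ k (r * a k) = 0) : ∑ k, χ k (a k) = 0 := by
  have := core hA (fun k => ι (a k))
    (fun k => bil ((χ k).comp P) (ContinuousLinearMap.id ℂ A - ι.comp P)
      (ContinuousLinearMap.id ℂ A)) (fun _ => 0) (fun k => (χ k).comp P) ?_ ?_ ?_ ?_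
  · simpa [h.proj] using this
  · intro y
    simp [h.proj]
  · intro x y
    simp [h.right]
  · intro x
    simp [sub_mul, h.p1, H]
  · intro x y
    simp [sub_mul, ← mul_assoc, h.p5, H]

lemma coreJ (hA : BAmen A) (h : CI ι P) {K : Type*} [Fintype K] (a : K → J)
    (β : K → J →L[ℂ] J →L[ℂ] ℂ) (ψ : K → J →L[ℂ] ℂ)
    (H1 : ∀ x y, ∑ k, β k (a k * x) y = ∑ k, ψ k (a k * x * y))
    (H2 : ∀ x y, ∑ k, β k x (y * a k) = 0) : ∑ k, ψ k (a k) = 0 := by
  have := core hA (fun k => ι (a k))
    (fun k => (β k).bilinearComp P P + bil ((ψ k).comp P) (ContinuousLinearMap.id ℂ A)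
      (ContinuousLinearMap.id ℂ A - ι.comp P)) (fun k => (ψ k).comp P) (fun _ => 0) ?_ ?_ ?_ ?_
  · simpa [h.proj] using this.symm
  · intro y
    have := rai hA h a (fun k => (β k).flip (P y) - (ψ k).comp (mulR J (P y)))
      (fun r => by simp [H1])
    simp only [sub_apply, flip_apply, comp_apply, mul_apply', Finset.sum_sub_distrib,
      sub_eq_zero] at this
    simp [mul_sub, h.p1, h.proj, Finset.sum_add_distrib, this]
  · intro x y
    have := rai hA h a (fun k => ((β k).flip (P y)).comp (P.comp ((mulR A x).comp ι)) -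
      (ψ k).comp (P.comp ((mulR A (x * ι (P y))).comp ι)))
      (fun r => by
        have := H1 (P (ι r * x)) (P y)
        simp only [sub_apply, flip_apply, comp_apply, mul_apply', Finset.sum_sub_distrib,
          sub_eq_zero, h.mul, mul_assoc, h.p3]
        simp only [← mul_assoc, h.p5] at this ⊢
        exact this)
    simp only [sub_apply, flip_apply, comp_apply, mul_apply', Finset.sum_sub_distrib,
      sub_eq_zero] at this
    simp [mul_sub, mul_assoc, Finset.sum_add_distrib, this]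
  · intro x
    have := lai hA h a (fun k => β k (P x)) (fun r => H2 _ _)
    simp [h.proj, this]
  · intro x y
    have := lai hA h a (fun k => (β k (P x)).comp (P.comp ((ContinuousLinearMap.mul ℂ A y).comp ι)))
      (fun r => by
        simp only [comp_apply, mul_apply', h.mul, ← mul_assoc, h.p4]
        exact H2 _ _)
    simp only [comp_apply, mul_apply'] at this
    simp [h.left, this]

/-- Hahn-Banach: the annihilator condition gives approximate semi-innerness. -/
lemma semiInner_of_annih {Y : Type u} [NormedAddCommGroup Y] [NormedSpace ℂ Y] (M : BBimod J Y)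
    (D : J →L[ℂ] Y)
    (H : ∀ (S : Finset J) (φ : S → Y →L[ℂ] ℂ), (∀ y, ∑ k : S, φ k (M.l k y) = 0) →
      (∀ y, ∑ k : S, φ k (M.r k y) = 0) → ∑ k : S, φ k (D k) = 0) :
    BSemiInner M D := by
  classical
  have key : ∀ (S : Finset J) (ε : ℝ), 0 < ε →
      ∃ ξ η : Y, ∀ a ∈ S, ‖M.l a ξ - M.r a η - D a‖ < ε := by
    intro S ε hε
    let T : (Y × Y) →ₗ[ℂ] (S → Y) :=
      { toFun := fun p k => M.l k p.1 - M.r k p.2
        map_add' := by intro p q; funext k; simp; abel
        map_smul' := by intro c p; funext k; simp [smul_sub] }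
    let W : Submodule ℂ (S → Y) := (LinearMap.range T).topologicalClosure
    have hv : (fun k : S => D k) ∈ W := by
      by_contra hv
      obtain ⟨Φ, c, hΦ1, hΦ2⟩ := RCLike.geometric_hahn_banach_closed_point (𝕜 := ℂ)
        (s := (W : Set (S → Y))) ((W.restrictScalars ℝ).convex)
        (LinearMap.range T).isClosed_topologicalClosure hv
      have hW : ∀ w ∈ W, Φ w = 0 := by
        intro w hw
        by_contra hne
        have := hΦ1 (((c + 1 : ℝ) / Φ w) • w) (W.smul_mem _ hw)
        rw [map_smul, smul_eq_mul, div_mul_cancel₀ _ hne] at this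
        simp at this
        linarith
      have hc : 0 < c := by simpa using hΦ1 0 W.zero_mem
      have hsum : ∀ v : S → Y, Φ v =
          ∑ k : S, (Φ.comp (ContinuousLinearMap.single ℂ (fun _ : S => Y) k)) (v k) := by
        intro v
        simp only [comp_apply, ← map_sum, ContinuousLinearMap.single_apply]
        rw [Finset.univ_sum_single]
      have h0 := H S (fun k => Φ.comp (ContinuousLinearMap.single ℂ (fun _ : S => Y) k))
        (fun y => by
          rw [← hsum (fun k => M.l k y)]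
          refine hW _ (Submodule.le_topologicalClosure _ ⟨(y, 0), ?_⟩)
          funext k; simp [T])
        (fun y => by
          rw [← hsum (fun k => M.r k y)]
          refine hW _ (Submodule.le_topologicalClosure _ ⟨(0, -y), ?_⟩)
          funext k; simp [T])
      rw [← hsum (fun k => D k)] at h0
      rw [h0] at hΦ2
      simp at hΦ2
      linarith
    have hv' : (fun k : S => D k) ∈ closure (LinearMap.range T : Set (S → Y)) := hv
    rw [Metric.mem_closure_iff] at hv'
    obtain ⟨b, ⟨p, rfl⟩, hb⟩ := hv' ε hε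
    refine ⟨p.1, p.2, fun a ha => ?_⟩
    have := (dist_pi_lt_iff hε).1 hb ⟨a, ha⟩
    rw [dist_comm, dist_eq_norm] at this
    exact this
  choose ξ η hξ using key
  refine ⟨Finset J × ℕ, inferInstance, inferInstance, inferInstance,
    fun i => ξ i.1 (1 / ((i.2 : ℝ) + 1)) Nat.one_div_pos_of_nat,
    fun i => η i.1 (1 / ((i.2 : ℝ) + 1)) Nat.one_div_pos_of_nat, fun a => ?_⟩
  rw [Metric.tendsto_atTop]
  intro ε hε
  obtain ⟨n, hn⟩ := exists_nat_one_div_lt hε
  refine ⟨({a}, n), fun i hi => ?_⟩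
  rw [dist_eq_norm]
  refine (hξ _ _ _ a (hi.1 (Finset.mem_singleton_self a))).trans_le (le_trans ?_ hn.le)
  have : (n : ℝ) ≤ i.2 := by exact_mod_cast hi.2
  gcongr

theorem approxSemiAmenable_of_CI (hA : BAmen A) (h : CI ι P)
    {Y : Type u} [NormedAddCommGroup Y] [NormedSpace ℂ Y] (M : BBimod J Y)
    (D : J →L[ℂ] Y) (hD : IsDerivation M D) : BSemiInner M D := by
  refine semiInner_of_annih M D fun S φ hl hr => ?_
  refine coreJ hA h (fun k : S => (k : J))
    (fun k => (((ContinuousLinearMap.compL ℂ J Y ℂ) (φ k)).comp M.r.flip).comp D)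
    (fun k => (φ k).comp D) ?_ ?_
  · intro x y
    simp only [comp_apply, compL_apply, flip_apply, mul_assoc, hD _ x, hD _ (x * y), map_add,
      add_apply, Finset.sum_add_distrib, ← M.l_r, hl, M.r_mul]
  · intro x y
    simp only [comp_apply, compL_apply, flip_apply, M.r_mul, hr]

end ideal

end Pool.Agent.MP_b29958_an
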